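import Mathlib.Algebra.Module.FinitePresentation

set_option autoImplicit false

namespace Pool.Agent.MP_ae9641_al

/-- The sequence `π₂, π₃, …` is admissible: if `π n` and `π m` lie in a common maximal ideal then
`n ∣ m` or `m ∣ n`.  The values `π 0` and `π 1` play no role. -/
def Admissible {k : Type} [CommRing k] (π : ℕ → k) : Prop :=
  ∀ n m : ℕ, 2 ≤ n → 2 ≤ m → ∀ I : Ideal k, I.IsMaximal → π n ∈ I → π m ∈ I → n ∣ m ∨ m ∣ n

/-- The structure constant `C(n,m) = ∏_{d ≥ 2} π_d ^ (⌊n/d⌋ - ⌊m/d⌋ - ⌊(n-m)/d⌋)`, for `m ≤ n`;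
the factors with `d > n` have exponent zero. -/
def coeffC {k : Type} [CommRing k] (π : ℕ → k) (n m : ℕ) : k :=
  ∏ d ∈ Finset.Icc 2 n, π d ^ (n / d - m / d - (n - m) / d)

/-- `ℳ` is a `ℤ`-grading of the `D`-module `M`, where `x i ∈ D` has degree `i`. -/
def IsGraded {k D : Type} [CommRing k] [CommRing D] (x : ℕ → D)
    {M : Type} [AddCommGroup M] [Module k M] [Module D M] (ℳ : ℤ → Submodule k M) : Prop :=
  DirectSum.IsInternal ℳ ∧ ∀ (i : ℕ) (j : ℤ) (m : M), m ∈ ℳ j → x i • m ∈ ℳ (j + i)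

/-- The truncation `τ_{≥ n}(M)`: the `D`-submodule generated by the pieces of degree `≥ n`. -/
def trunc {k : Type} (D : Type) [CommRing k] [CommRing D]
    {M : Type} [AddCommGroup M] [Module k M] [Module D M] (ℳ : ℤ → Submodule k M) (n : ℤ) :
    Submodule D M :=
  Submodule.span D {m : M | ∃ j : ℤ, n ≤ j ∧ m ∈ ℳ j}

/-- Nearly finitely presented: finitely generated pieces, bounded below, and some truncation is
isomorphic, as a graded `D`-module, to the same truncation of a finitely presented graded module. -/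
def IsNFP {k D : Type} [CommRing k] [CommRing D] [Algebra k D] (x : ℕ → D)
    {M : Type} [AddCommGroup M] [Module k M] [Module D M] (ℳ : ℤ → Submodule k M) : Prop :=
  (∀ j : ℤ, (ℳ j).FG) ∧ (∃ j₀ : ℤ, ∀ j : ℤ, j < j₀ → ℳ j = ⊥) ∧
  ∃ (N : Type) (_ : AddCommGroup N) (_ : Module k N) (_ : Module D N) (_ : IsScalarTower k D N)
    (𝒩 : ℤ → Submodule k N), IsGraded x 𝒩 ∧ Module.FinitePresentation D N ∧
    ∃ (n : ℤ) (e : trunc D ℳ n ≃ₗ[D] trunc D 𝒩 n),
      ∀ (j : ℤ) (m : trunc D ℳ n), (m : M) ∈ ℳ j ↔ (e m : N) ∈ 𝒩 j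

/-- The grading induced on a `D`-submodule `S` of `M`: its piece of degree `j` is `S ∩ ℳ j`. -/
def subGrading {k D : Type} [CommRing k] [CommRing D] [Algebra k D]
    {M : Type} [AddCommGroup M] [Module k M] [Module D M] [IsScalarTower k D M]
    (ℳ : ℤ → Submodule k M) (S : Submodule D M) (j : ℤ) : Submodule k S :=
  (ℳ j).comap (S.subtype.restrictScalars k)

end Pool.Agent.MP_ae9641_al
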