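import Mathlib.Data.Int.Star
import Mathlib.Algebra.Order.Ring.Star
import Mathlib.RingTheory.PicardGroup
import Mathlib.Data.Nat.Prime.Int
import Mathlib.Algebra.Polynomial.Basis
import Mathlib.NumberTheory.ArithmeticFunction.VonMangoldt
import Mathlib.Order.CompletePartialOrder
import Mathlib.RingTheory.TotallySplit
import Pool.Agent.MP_ae9641_al.Defs

-- ======== part 0: formerly Pool.Agent.MP_ae9641_al.Arith
section MrgPart0

set_option autoImplicit false

namespace Pool.Agent.MP_ae9641_al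

open Finset

/-- the classical sequence: `p` at powers of the prime `p`, and `1` elsewhere -/
def piN (d : ℕ) : ℕ := if IsPrimePow d then d.minFac else 1

theorem piN_pos (d : ℕ) : 0 < piN d := by
  unfold piN; split_ifs
  · exact Nat.minFac_pos d
  · exact one_pos

theorem log_piN (d : ℕ) : Real.log (piN d) = ArithmeticFunction.vonMangoldt d := by
  rw [ArithmeticFunction.vonMangoldt_apply]
  unfold piN; split_ifs <;> simp

theorem prod_piN_divisors (j : ℕ) (hj : 0 < j) : ∏ d ∈ j.divisors, piN d = j := by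
  have h1 : Real.log ((∏ d ∈ j.divisors, piN d : ℕ) : ℝ) = Real.log j := by
    rw [← ArithmeticFunction.vonMangoldt_sum (n := j), Nat.cast_prod, Real.log_prod]
    · exact Finset.sum_congr rfl fun d _ => log_piN d
    · intro d _; exact_mod_cast (piN_pos d).ne'
  have h2 : (0 : ℝ) < ((∏ d ∈ j.divisors, piN d : ℕ) : ℝ) := by
    exact_mod_cast Finset.prod_pos fun d _ => piN_pos d
  have h3 : (0 : ℝ) < j := by exact_mod_cast hj
  exact_mod_cast Real.log_injOn_pos h2 h3 h1

theorem piN_one : piN 1 = 1 := by simp [piN]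

theorem prod_piN_ite (N j : ℕ) (hj : 0 < j) (hN : j ≤ N) :
    ∏ d ∈ Icc 2 N, piN d ^ (if d ∣ j then 1 else 0) = j := by
  have h1 : ∏ d ∈ Icc 2 N, piN d ^ (if d ∣ j then 1 else 0)
      = ∏ d ∈ (Icc 2 N).filter (· ∣ j), piN d := by
    rw [Finset.prod_filter]
    refine Finset.prod_congr rfl fun d _ => ?_
    split_ifs <;> simp
  rw [h1]
  have h2 : j.divisors = insert 1 ((Icc 2 N).filter (· ∣ j)) := by
    ext d
    simp only [Nat.mem_divisors, mem_insert, mem_filter, mem_Icc]
    constructor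
    · rintro ⟨hd, -⟩
      by_cases h : d = 1
      · exact Or.inl h
      · right
        have := Nat.pos_of_dvd_of_pos hd hj
        have := Nat.le_of_dvd hj hd
        exact ⟨⟨by omega, by omega⟩, hd⟩
    · rintro (rfl | ⟨-, hd⟩)
      · exact ⟨one_dvd _, hj.ne'⟩
      · exact ⟨hd, hj.ne'⟩
  have h3 := prod_piN_divisors j hj
  rw [h2, Finset.prod_insert (by simp), piN_one, one_mul] at h3
  exact h3

theorem prod_piN_factorial (N n : ℕ) (hN : n ≤ N) :
    ∏ d ∈ Icc 2 N, piN d ^ (n / d) = n.factorial := by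
  induction n with
  | zero => simp
  | succ n ih =>
    rw [Nat.factorial_succ, ← ih (by omega), mul_comm]
    conv_rhs => rw [← prod_piN_ite N (n + 1) (by omega) hN]
    rw [← Finset.prod_mul_distrib]
    refine Finset.prod_congr rfl fun d _ => ?_
    rw [Nat.succ_div, pow_add]

theorem coeff_nat (n m : ℕ) :
    ∏ d ∈ Icc 2 (n + m), piN d ^ ((n + m) / d - n / d - (n + m - n) / d) = (n + m).choose n := by
  have h1 : (∏ d ∈ Icc 2 (n + m), piN d ^ ((n + m) / d - n / d - (n + m - n) / d)) *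
      n.factorial * m.factorial = (n + m).factorial := by
    rw [← prod_piN_factorial (n + m) n (by omega), ← prod_piN_factorial (n + m) m (by omega),
      ← prod_piN_factorial (n + m) (n + m) le_rfl, ← Finset.prod_mul_distrib,
      ← Finset.prod_mul_distrib]
    refine Finset.prod_congr rfl fun d _ => ?_
    rw [← pow_add, ← pow_add, Nat.add_sub_cancel_left]
    congr 1
    have := @Nat.div_add_div_le_add_div n m d
    omega
  have h2 := Nat.add_choose_mul_factorial_mul_factorial n m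
  have h3 : (n + m).choose m = (n + m).choose n := Nat.choose_symm_add.symm
  rw [h3, ← h1] at h2
  have h4 : 0 < n.factorial := Nat.factorial_pos n
  have h5 : 0 < m.factorial := Nat.factorial_pos m
  exact (Nat.eq_of_mul_eq_mul_right h4 (Nat.eq_of_mul_eq_mul_right h5 h2)).symm

theorem coeffC_classical (k : Type) [CommRing k] (n m : ℕ) :
    coeffC (fun d => (piN d : k)) (n + m) n = ((n + m).choose n : k) := by
  rw [← coeff_nat n m, coeffC]
  push_cast
  rfl

end Pool.Agent.MP_ae9641_al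

end MrgPart0

-- ======== part 1: formerly Pool.Agent.MP_ae9641_al.Ring
section MrgPart1

set_option autoImplicit false

namespace Pool.Agent.MP_ae9641_al

open Polynomial

/-- existence of the classical divided power algebra over a domain of characteristic zero -/
theorem exists_dpa (k : Type) [CommRing k] [IsDomain k] [CharZero k] :
    ∃ (D : Type) (_ : CommRing D) (_ : Algebra k D) (x : Module.Basis ℕ k D),
      ∀ n m : ℕ, x n * x m = ((n + m).choose n : k) • x (n + m) := by
  let K := FractionRing k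
  have : CharZero K := charZero_of_injective_algebraMap (IsFractionRing.injective k K)
  let e : ℕ → K[X] := fun n => monomial n ((n.factorial : K)⁻¹)
  have hmul : ∀ n m : ℕ, e n * e m = ((n + m).choose n : k) • e (n + m) := by
    intro n m
    simp only [e, monomial_mul_monomial, smul_monomial]
    congr 1
    rw [Algebra.smul_def, map_natCast]
    have h2 := Nat.add_choose_mul_factorial_mul_factorial n m
    have h3 : (n + m).choose m = (n + m).choose n := Nat.choose_symm_add.symm
    rw [h3] at h2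
    have h4 : (n.factorial : K) ≠ 0 := by exact_mod_cast (Nat.factorial_pos n).ne'
    have h5 : (m.factorial : K) ≠ 0 := by exact_mod_cast (Nat.factorial_pos m).ne'
    have h6 : ((n + m).choose n : K) ≠ 0 := by
      exact_mod_cast (Nat.choose_pos (by omega : n ≤ n + m)).ne'
    have h7 : ((n + m).factorial : K) = ((n + m).choose n : K) * n.factorial * m.factorial := by
      rw [← h2, Nat.cast_mul, Nat.cast_mul]
    rw [h7, mul_inv, mul_inv, ← mul_assoc, ← mul_assoc, mul_inv_cancel₀ h6, one_mul]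
  have hli : LinearIndependent k e := by
    have h1 : LinearIndependent K e := by
      have h0 : LinearIndependent K (fun n : ℕ => (monomial n (1 : K) : K[X])) := by
        have := (Polynomial.basisMonomials K).linearIndependent
        simpa using this
      have h2 := h0.units_smul (fun n : ℕ => Units.mk0 ((n.factorial : K)⁻¹)
        (inv_ne_zero (by exact_mod_cast (Nat.factorial_pos n).ne')))
      convert h2 using 1
      ext1 n
      simp [e, Units.smul_def, smul_monomial]
    exact h1.restrict_scalars' k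
  let S : Submodule k K[X] := Submodule.span k (Set.range e)
  have h1 : (1 : K[X]) ∈ S := Submodule.subset_span ⟨0, by simp [e]⟩
  have hS : ∀ a b : K[X], a ∈ S → b ∈ S → a * b ∈ S := by
    intro a b ha hb
    induction ha using Submodule.span_induction with
    | mem a ha =>
      obtain ⟨n, rfl⟩ := ha
      induction hb using Submodule.span_induction with
      | mem b hb =>
        obtain ⟨m, rfl⟩ := hb
        rw [hmul]
        exact S.smul_mem _ (Submodule.subset_span ⟨_, rfl⟩)
      | zero => simp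
      | add b c _ _ hb hc => rw [mul_add]; exact S.add_mem hb hc
      | smul r b _ hb => rw [mul_smul_comm]; exact S.smul_mem _ hb
    | zero => simp
    | add a c _ _ ha hc => rw [add_mul]; exact S.add_mem ha hc
    | smul r a _ ha => rw [smul_mul_assoc]; exact S.smul_mem _ ha
  let D : Subalgebra k K[X] := S.toSubalgebra h1 hS
  let v : ℕ → D := fun n => ⟨e n, Submodule.subset_span ⟨n, rfl⟩⟩
  have hv : LinearIndependent k v := LinearIndependent.of_comp D.val.toLinearMap hli
  have hsp : ⊤ ≤ Submodule.span k (Set.range v) := by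
    have key : ∀ (a : K[X]) (ha : a ∈ S), (⟨a, ha⟩ : D) ∈ Submodule.span k (Set.range v) := by
      intro a ha
      induction ha using Submodule.span_induction with
      | mem a h => obtain ⟨n, rfl⟩ := h; exact Submodule.subset_span ⟨n, rfl⟩
      | zero => exact Submodule.zero_mem _
      | add a b ha hb iha ihb => exact Submodule.add_mem _ iha ihb
      | smul r a ha iha => exact Submodule.smul_mem _ r iha
    rintro ⟨a, ha⟩ -
    exact key a ha
  refine ⟨D, inferInstance, inferInstance, Module.Basis.mk hv hsp, fun n m => ?_⟩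
  simp only [Module.Basis.mk_apply]
  exact Subtype.ext (hmul n m)

/-- the base ring: the integers localized at the prime `2` -/
instance two_prime : (Ideal.span {(2 : ℤ)}).IsPrime :=
  (Ideal.span_singleton_prime (by norm_num)).2 Int.prime_two

abbrev Z2 : Type := Localization.AtPrime (Ideal.span {(2 : ℤ)})

theorem Z2_inj : Function.Injective (algebraMap ℤ Z2) :=
  IsLocalization.injective Z2 (Ideal.primeCompl_le_nonZeroDivisors (Ideal.span {(2 : ℤ)}))

instance : CharZero Z2 := charZero_of_injective_algebraMap Z2_inj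

instance : Countable Z2 := by
  have : Function.Surjective
      (fun p : ℤ × (Ideal.span {(2 : ℤ)}).primeCompl => IsLocalization.mk' Z2 p.1 p.2) := by
    intro z
    obtain ⟨⟨a, s⟩, h⟩ := IsLocalization.mk'_surjective (Ideal.span {(2 : ℤ)}).primeCompl z
    exact ⟨(a, s), h⟩
  exact this.countable

theorem Z2_isUnit_iff (a : ℤ) : IsUnit (a : Z2) ↔ ¬ (2 : ℤ) ∣ a := by
  have := IsLocalization.AtPrime.isUnit_to_map_iff Z2 (Ideal.span {(2 : ℤ)}) a
  rw [eq_intCast] at this
  rw [this]
  simp [Ideal.mem_primeCompl_iff, Ideal.mem_span_singleton]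

theorem Z2_two_not_unit : ¬ IsUnit (2 : Z2) := by
  have := Z2_isUnit_iff 2
  simp only [Int.cast_ofNat, dvd_refl, not_true_eq_false, iff_false] at this
  exact this

theorem Z2_odd_unit (j : ℕ) (hj : ¬ 2 ∣ j) : IsUnit (j : Z2) := by
  have := (Z2_isUnit_iff j).2 (by exact_mod_cast hj)
  simpa using this

theorem Z2_dvd_pow (j : ℕ) (hj : 0 < j) : (j : Z2) ∣ 2 ^ j := by
  obtain ⟨a, b, hb, rfl⟩ := Nat.exists_eq_two_pow_mul_odd hj.ne'
  have hu : IsUnit (b : Z2) := Z2_odd_unit b (by
    rw [← even_iff_two_dvd]; exact Nat.not_even_iff_odd.2 hb)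
  push_cast
  rw [hu.mul_right_dvd]
  apply pow_dvd_pow
  have h1 : a < 2 ^ a := Nat.lt_two_pow_self
  have h2 : 0 < b := hb.pos
  nlinarith

theorem Z2_admissible : Admissible (fun d => (piN d : Z2)) := by
  have key : ∀ n : ℕ, 2 ≤ n → ∀ I : Ideal Z2, I.IsMaximal → (piN n : Z2) ∈ I →
      ∃ a : ℕ, n = 2 ^ a := by
    intro n _ I hI hn
    have hnu : ¬ IsUnit (piN n : Z2) := fun h => hI.ne_top (Ideal.eq_top_of_isUnit_mem I hn h)
    have h2 : 2 ∣ piN n := by
      by_contra h
      exact hnu (Z2_odd_unit _ h)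
    unfold piN at h2
    split_ifs at h2 with hp
    · obtain ⟨p, a, hq, ha, rfl⟩ := (isPrimePow_nat_iff _).1 hp
      rw [hq.pow_minFac ha.ne'] at h2
      rw [← (Nat.prime_dvd_prime_iff_eq Nat.prime_two hq).1 h2]
      exact ⟨a, rfl⟩
    · omega
  intro n m hn hm I hI h1 h2
  obtain ⟨a, rfl⟩ := key n hn I hI h1
  obtain ⟨b, rfl⟩ := key m hm I hI h2
  rcases le_total a b with h | h
  · exact Or.inl (pow_dvd_pow 2 h)
  · exact Or.inr (pow_dvd_pow 2 h)

theorem Z2_infinite :
    {n : ℕ | 2 ≤ n ∧ (piN n : Z2) ∈ Ideal.jacobson (⊥ : Ideal Z2)}.Infinite := by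
  apply Set.infinite_of_injective_forall_mem (f := fun a : ℕ => 2 ^ (a + 1))
  · intro a b h
    have := Nat.pow_right_injective (le_refl 2) h
    omega
  · intro a
    refine ⟨?_, ?_⟩
    · have : 0 < 2 ^ a := by positivity
      rw [pow_succ]; omega
    · have hp : IsPrimePow (2 ^ (a + 1)) := (Nat.prime_two.isPrimePow).pow (by omega)
      have : piN (2 ^ (a + 1)) = 2 := by
        rw [piN, if_pos hp, Nat.prime_two.pow_minFac (by omega)]
      rw [this, IsLocalRing.jacobson_eq_maximalIdeal _ bot_ne_top]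
      simpa using Z2_two_not_unit

/-- a `2`-adically Cauchy sequence with no limit in the base ring -/
theorem exists_seq (k : Type) [CommRing k] [IsDomain k] [Countable k] (t : k) (ht0 : t ≠ 0)
    (ht : ¬ IsUnit t) :
    ∃ c : ℕ → k, (∀ j l : ℕ, j ≤ l → t ^ j ∣ c l - c j) ∧
      ∀ a : k, ∃ r : ℕ, ∀ l : ℕ, r ≤ l → ¬ t ^ r ∣ c l - a := by
  classical
  obtain ⟨s, hs⟩ := exists_surjective_nat k
  let c : ℕ → k := fun n => Nat.rec 0
    (fun r cr => if t ^ (r + 1) ∣ cr - s r then cr + t ^ r else cr) n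
  have hc : ∀ r, c (r + 1) = if t ^ (r + 1) ∣ c r - s r then c r + t ^ r else c r := fun _ => rfl
  have h1 : ∀ r, t ^ r ∣ c (r + 1) - c r := by
    intro r; rw [hc]; split_ifs <;> simp
  have h2 : ∀ j l : ℕ, j ≤ l → t ^ j ∣ c l - c j := by
    intro j l hjl
    induction l, hjl using Nat.le_induction with
    | base => simp
    | succ l hl ih =>
      have : c (l + 1) - c j = (c (l + 1) - c l) + (c l - c j) := by ring
      rw [this]
      exact dvd_add ((pow_dvd_pow t hl).trans (h1 l)) ih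
  have h3 : ∀ r, ¬ t ^ (r + 1) ∣ c (r + 1) - s r := by
    intro r
    rw [hc]
    split_ifs with h
    · intro h'
      have h4 : t ^ (r + 1) ∣ t ^ r := by
        have : t ^ r = (c r + t ^ r - s r) - (c r - s r) := by ring
        rw [this]; exact dvd_sub h' h
      rw [pow_succ] at h4
      nth_rewrite 2 [← mul_one (t ^ r)] at h4
      exact ht (isUnit_of_dvd_one ((mul_dvd_mul_iff_left (pow_ne_zero r ht0)).1 h4))
    · exact h
  refine ⟨c, h2, fun a => ?_⟩
  obtain ⟨r, rfl⟩ := hs a
  refine ⟨r + 1, fun l hl h => h3 r ?_⟩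
  have : c (r + 1) - s r = (c l - s r) - (c l - c (r + 1)) := by ring
  rw [this]
  exact dvd_sub h (h2 _ _ hl)

theorem exists_pow_not_dvd (k : Type) [CommRing k] [IsDomain k] [IsNoetherianRing k] (t : k)
    (ht : ¬ IsUnit t) (a : k) (ha : a ≠ 0) : ∃ r : ℕ, ¬ t ^ r ∣ a := by
  by_contra h
  push Not at h
  have h1 := Ideal.iInf_pow_eq_bot_of_isDomain (Ideal.span {t})
    (by rwa [Ne, Ideal.span_singleton_eq_top])
  apply ha
  rw [← Ideal.mem_bot, ← h1, Ideal.mem_iInf]
  intro i
  rw [Ideal.span_singleton_pow, Ideal.mem_span_singleton]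
  exact h i

end Pool.Agent.MP_ae9641_al

end MrgPart1

-- ======== part 2: formerly Pool.Agent.MP_ae9641_al.Graded
section MrgPart2

set_option autoImplicit false

namespace Pool.Agent.MP_ae9641_al

section General

variable {k : Type} [CommRing k] {M : Type} [AddCommGroup M] [Module k M]

theorem exists_proj {ℳ : ℤ → Submodule k M} (h : DirectSum.IsInternal ℳ) :
    ∃ P : ℤ → M →ₗ[k] M, (∀ j m, P j m ∈ ℳ j) ∧ (∀ j m, m ∈ ℳ j → P j m = m) ∧
      (∀ i j m, i ≠ j → m ∈ ℳ i → P j m = 0) := by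
  classical
  let _ := h.chooseDecomposition
  refine ⟨fun j => (ℳ j).subtype ∘ₗ DirectSum.component k ℤ (fun i => ℳ i) j ∘ₗ
    (DirectSum.decomposeLinearEquiv ℳ).toLinearMap, ?_, ?_, ?_⟩
  · intro j m; exact Subtype.property _
  · intro j m hm; exact DirectSum.decompose_of_mem_same ℳ hm
  · intro i j m hij hm; exact DirectSum.decompose_of_mem_ne ℳ hm hij

theorem isInternal_of {ℳ : ℤ → Submodule k M}
    (h1 : ∀ j m, m ∈ ℳ j → m ∈ ⨆ i, ⨆ (_ : i ≠ j), ℳ i → m = 0) (h2 : ∀ m, m ∈ ⨆ i, ℳ i) :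
    DirectSum.IsInternal ℳ := by
  rw [DirectSum.isInternal_submodule_iff_iSupIndep_and_iSup_eq_top]
  refine ⟨fun j => ?_, eq_top_iff.2 fun m _ => h2 m⟩
  rw [Submodule.disjoint_def]
  exact h1 j

theorem map_eq_zero_of_mem_iSup {ℳ : ℤ → Submodule k M} {M' : Type} [AddCommGroup M']
    [Module k M'] (P : M →ₗ[k] M') (j : ℤ) (S : Submodule k M')
    (h : ∀ i, i ≠ j → ∀ m ∈ ℳ i, P m ∈ S)
    {m : M} (hm : m ∈ ⨆ i, ⨆ (_ : i ≠ j), ℳ i) : P m ∈ S := by
  have : (⨆ i, ⨆ (_ : i ≠ j), ℳ i) ≤ S.comap P :=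
    iSup_le fun i => iSup_le fun hi m hm => h i hi m hm
  exact this hm

end General

section DPA

variable {k D : Type} [CommRing k] [CommRing D] [Algebra k D] (x : Module.Basis ℕ k D)

/-- the grading of `D` -/
def grD (j : ℤ) : Submodule k D := Submodule.span k (x '' {n : ℕ | (n : ℤ) = j})

theorem x_mem_grD (n : ℕ) : x n ∈ grD x n := Submodule.subset_span ⟨n, rfl, rfl⟩

theorem grD_fg (j : ℤ) : (grD x j).FG := by
  apply Submodule.fg_span
  apply Set.Finite.image
  apply Set.Subsingleton.finite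
  intro a ha b hb
  simp only [Set.mem_ofPred_eq] at ha hb
  omega

theorem grD_neg {j : ℤ} (hj : j < 0) : grD x j = ⊥ := by
  have : {n : ℕ | (n : ℤ) = j} = ∅ := by
    ext n; simp only [Set.mem_ofPred_eq, Set.mem_empty_iff_false, iff_false]; omega
  rw [grD, this]; simp

theorem mem_grD_iff (n : ℕ) (y : D) : y ∈ grD x n ↔ ∃ r : k, y = r • x n := by
  have : {m : ℕ | (m : ℤ) = n} = {n} := by
    ext m; simp
  rw [grD, this, Set.image_singleton, Submodule.mem_span_singleton]
  simp [eq_comm]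

/-- projection of `D` on the degree `j` -/
noncomputable def prD (j : ℤ) : D →ₗ[k] D :=
  x.constr k (fun n : ℕ => if (n : ℤ) = j then x n else 0)

theorem prD_x (j : ℤ) (n : ℕ) : prD x j (x n) = if (n : ℤ) = j then x n else 0 := by
  simp [prD]

theorem prD_same {j : ℤ} {y : D} (hy : y ∈ grD x j) : prD x j y = y := by
  induction hy using Submodule.span_induction with
  | mem a h => obtain ⟨n, hn, rfl⟩ := h; rw [prD_x, if_pos (show (n : ℤ) = j from hn)]
  | zero => simp
  | add a b _ _ ha hb => rw [map_add, ha, hb]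
  | smul r a _ ha => rw [map_smul, ha]

theorem prD_ne {i j : ℤ} (hij : i ≠ j) {y : D} (hy : y ∈ grD x i) : prD x j y = 0 := by
  induction hy using Submodule.span_induction with
  | mem a h =>
    obtain ⟨n, hn, rfl⟩ := h
    rw [prD_x, if_neg]
    intro h; exact hij (hn.symm.trans h)
  | zero => simp
  | add a b _ _ ha hb => rw [map_add, ha, hb, add_zero]
  | smul r a _ ha => rw [map_smul, ha, smul_zero]

theorem basis_induction {p : D → Prop} (h0 : p 0) (hadd : ∀ a b, p a → p b → p (a + b))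
    (hs : ∀ (r : k) a, p a → p (r • a)) (hx : ∀ n, p (x n)) (y : D) : p y := by
  have hy : y ∈ Submodule.span k (Set.range x) := by rw [x.span_eq]; trivial
  induction hy using Submodule.span_induction with
  | mem a h => obtain ⟨n, rfl⟩ := h; exact hx n
  | zero => exact h0
  | add a b _ _ ha hb => exact hadd a b ha hb
  | smul r a _ ha => exact hs r a ha

theorem mem_iSup_grD (y : D) : y ∈ ⨆ i, grD x i := by
  refine basis_induction x (p := fun y => y ∈ ⨆ i, grD x i) (Submodule.zero_mem _)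
    (fun a b => Submodule.add_mem _) (fun r a => Submodule.smul_mem _ r) (fun n => ?_) y
  exact Submodule.mem_iSup_of_mem (n : ℤ) (x_mem_grD x n)

variable (hx : ∀ n m : ℕ, x n * x m = ((n + m).choose n : k) • x (n + m))
include hx

theorem mul_mem_grD (i : ℕ) (j : ℤ) (y : D) (hy : y ∈ grD x j) : x i * y ∈ grD x (j + i) := by
  induction hy using Submodule.span_induction with
  | mem a h =>
    obtain ⟨n, hn, rfl⟩ := h
    rw [hx]
    refine Submodule.smul_mem _ _ (Submodule.subset_span ⟨i + n, ?_, rfl⟩)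
    simp only [Set.mem_ofPred_eq] at hn ⊢
    push_cast; omega
  | zero => simp
  | add a b _ _ ha hb => rw [mul_add]; exact Submodule.add_mem _ ha hb
  | smul r a _ ha => rw [mul_smul_comm]; exact Submodule.smul_mem _ _ ha

theorem x_one_mul (n : ℕ) : x 1 * x n = ((n + 1 : ℕ) : k) • x (n + 1) := by
  rw [hx, add_comm 1 n, Nat.choose_one_right]

theorem repr_x_one_mul (y : D) (J : ℕ) :
    x.repr (x 1 * y) (J + 1) = ((J + 1 : ℕ) : k) * x.repr y J := by
  refine basis_induction x
    (p := fun y => x.repr (x 1 * y) (J + 1) = ((J + 1 : ℕ) : k) * x.repr y J) (by simp)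
    (fun a b ha hb => ?_) (fun r a ha => ?_) (fun n => ?_) y
  · simp only [mul_add, map_add, Finsupp.add_apply, ha, hb]
  · simp only [mul_smul_comm, map_smul, Finsupp.smul_apply, ha, smul_eq_mul]; ring
  · rw [x_one_mul x hx]
    simp only [map_smul, Finsupp.smul_apply, Module.Basis.repr_self, smul_eq_mul,
      Finsupp.single_apply, Nat.add_right_cancel_iff]
    split_ifs with h
    · rw [h]
    · simp

theorem prD_x_one_mul (j : ℤ) (y : D) : prD x j (x 1 * y) = x 1 * prD x (j - 1) y := by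
  refine basis_induction x
    (p := fun y => prD x j (x 1 * y) = x 1 * prD x (j - 1) y) (by simp)
    (fun a b ha hb => ?_) (fun r a ha => ?_) (fun n => ?_) y
  · simp only [mul_add, map_add, ha, hb]
  · simp only [mul_smul_comm, map_smul, ha]
  · rw [x_one_mul x hx, map_smul, prD_x, prD_x]
    by_cases h : (n : ℤ) = j - 1
    · rw [if_pos h, if_pos (by push_cast; omega), x_one_mul x hx]
    · rw [if_neg h, if_neg (by push_cast; omega)]; simp

/-- the grading of `D × D` -/
def grDD (j : ℤ) : Submodule k (D × D) := (grD x j).prod (grD x j)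

omit hx in
theorem grDD_indep (j : ℤ) (m : D × D) (h1 : m ∈ grDD x j)
    (h2 : m ∈ ⨆ i, ⨆ (_ : i ≠ j), grDD x i) : m = 0 := by
  have h3 := map_eq_zero_of_mem_iSup ((prD x j).prodMap (prD x j)) j ⊥ (fun i hi m hm => by
    rw [Submodule.mem_bot]
    exact Prod.ext (prD_ne x hi hm.1) (prD_ne x hi hm.2)) h2
  rw [Submodule.mem_bot] at h3
  rw [← h3]
  exact Prod.ext (prD_same x h1.1).symm (prD_same x h1.2).symm

theorem isGraded_grDD : IsGraded x (grDD x) := by
  refine ⟨isInternal_of (grDD_indep x) ?_, ?_⟩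
  · rintro ⟨a, b⟩
    have h1 : (⨆ i, grD x i) ≤ (⨆ i, grDD x i).comap (LinearMap.inl k D D) :=
      iSup_le fun i y hy => Submodule.mem_iSup_of_mem i ⟨hy, Submodule.zero_mem _⟩
    have h2 : (⨆ i, grD x i) ≤ (⨆ i, grDD x i).comap (LinearMap.inr k D D) :=
      iSup_le fun i y hy => Submodule.mem_iSup_of_mem i ⟨Submodule.zero_mem _, hy⟩
    have h3 : ((a, 0) : D × D) ∈ ⨆ i, grDD x i := h1 (mem_iSup_grD x a)
    have h4 : ((0, b) : D × D) ∈ ⨆ i, grDD x i := h2 (mem_iSup_grD x b)
    simpa using Submodule.add_mem _ h3 h4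
  · rintro i j ⟨a, b⟩ ⟨ha, hb⟩
    exact ⟨mul_mem_grD x hx i j a ha, mul_mem_grD x hx i j b hb⟩

omit hx in
theorem smul_mem_iSup {M : Type} [AddCommGroup M] [Module k M] [Module D M]
    [IsScalarTower k D M] {ℳ : ℤ → Submodule k M}
    (h : ∀ (i : ℕ) (j : ℤ) (m : M), m ∈ ℳ j → x i • m ∈ ℳ (j + i)) (d : D) (m : M)
    (hm : m ∈ ⨆ i, ℳ i) : d • m ∈ ⨆ i, ℳ i := by
  refine basis_induction x (p := fun d => d • m ∈ ⨆ i, ℳ i) (by simp)
    (fun a b ha hb => ?_) (fun r a ha => ?_) (fun n => ?_) d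
  · rw [add_smul]; exact Submodule.add_mem _ ha hb
  · rw [smul_assoc]; exact Submodule.smul_mem _ _ ha
  · have : (⨆ i, ℳ i) ≤ (⨆ i, ℳ i).comap
        ((LinearMap.lsmul D M (x n)).restrictScalars k) :=
      iSup_le fun i y hy => Submodule.mem_iSup_of_mem (i + n) (h n i y hy)
    exact this hm

/-- the source module: the truncation of `D × D` in degrees `≥ 1` -/
abbrev srcM : Submodule D (D × D) := trunc D (grDD x) 1

theorem isGraded_src : IsGraded x (subGrading (grDD x) (srcM x)) := by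
  have hsm : ∀ (i : ℕ) (j : ℤ) (m : srcM x), m ∈ subGrading (grDD x) (srcM x) j →
      x i • m ∈ subGrading (grDD x) (srcM x) (j + i) :=
    fun i j m hm => (isGraded_grDD x hx).2 i j m hm
  refine ⟨isInternal_of ?_ ?_, hsm⟩
  · intro j m h1 h2
    apply Subtype.ext
    apply grDD_indep x j m h1
    exact map_eq_zero_of_mem_iSup ((srcM x).subtype.restrictScalars k) j _
      (fun i hi m hm => Submodule.mem_iSup_of_mem i (Submodule.mem_iSup_of_mem hi hm)) h2
  · rintro ⟨m, hm⟩
    induction hm using Submodule.span_induction with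
    | mem a h => obtain ⟨j, -, hj⟩ := h; exact Submodule.mem_iSup_of_mem j hj
    | zero => exact Submodule.zero_mem _
    | add a b ha hb iha ihb => exact Submodule.add_mem _ iha ihb
    | smul r a ha iha => exact smul_mem_iSup x hsm r ⟨a, ha⟩ iha

theorem isNFP_src [IsNoetherianRing k] : IsNFP x (subGrading (grDD x) (srcM x)) := by
  refine ⟨fun j => ?_, ⟨0, fun j hj => ?_⟩, D × D, inferInstance, inferInstance, inferInstance,
    inferInstance, grDD x, isGraded_grDD x hx, inferInstance, 1, ?_⟩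
  · apply Submodule.fg_of_fg_map_injective ((srcM x).subtype.restrictScalars k)
      Subtype.val_injective
    exact Submodule.FG.of_le ((grD_fg x j).prod (grD_fg x j)) (Submodule.map_comap_le _ _)
  · rw [eq_bot_iff]
    intro m hm
    have h1 : (m : D × D) ∈ grDD x j := hm
    rw [grDD, grD_neg x hj] at h1
    rw [Submodule.mem_bot]
    exact Subtype.ext (Prod.ext h1.1 h1.2)
  · have htop : trunc D (subGrading (grDD x) (srcM x)) 1 = ⊤ :=
      Submodule.span_span_coe_preimage
    exact ⟨LinearEquiv.ofTop _ htop, fun j m => Iff.rfl⟩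

/-- the ideal generated by `x 1` -/
abbrev idI : Submodule D D := Submodule.span D {x 1}

/-- the grading of the target module `D / x D` -/
def grQ (j : ℤ) : Submodule k (D ⧸ idI x) := (grD x j).map ((idI x).mkQ.restrictScalars k)

theorem isGraded_grQ : IsGraded x (grQ x) := by
  refine ⟨isInternal_of ?_ ?_, ?_⟩
  · rintro j _ ⟨y, hy, rfl⟩ h2
    have h3 : (⨆ i, ⨆ (_ : i ≠ j), grQ x i) ≤
        (⨆ i, ⨆ (_ : i ≠ j), grD x i).map ((idI x).mkQ.restrictScalars k) :=
      iSup_le fun i => iSup_le fun hi => Submodule.map_mono (le_iSup₂_of_le i hi le_rfl)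
    obtain ⟨z, hz, hzy⟩ := h3 h2
    have h4 : y - z ∈ idI x := (Submodule.Quotient.eq _).1 hzy.symm
    obtain ⟨w, hw⟩ := Submodule.mem_span_singleton.1 h4
    have h5 : prD x j z = 0 := by
      have := map_eq_zero_of_mem_iSup (prD x j) j ⊥ (fun i hi m hm => prD_ne x hi hm) hz
      simpa using this
    have h6 : prD x j (y - z) = y := by rw [map_sub, h5, prD_same x hy, sub_zero]
    rw [← hw, smul_eq_mul, mul_comm, prD_x_one_mul x hx] at h6
    refine (Submodule.Quotient.mk_eq_zero _).2 ?_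
    rw [← h6, mul_comm]
    exact Submodule.mem_span_singleton.2 ⟨_, rfl⟩
  · intro m
    obtain ⟨y, rfl⟩ := (idI x).mkQ_surjective m
    have h1 : (⨆ i, grD x i) ≤ (⨆ i, grQ x i).comap ((idI x).mkQ.restrictScalars k) :=
      iSup_le fun i y hy => Submodule.mem_iSup_of_mem i ⟨y, hy, rfl⟩
    exact h1 (mem_iSup_grD x y)
  · rintro i j _ ⟨y, hy, rfl⟩
    exact ⟨x i * y, mul_mem_grD x hx i j y hy, rfl⟩

theorem isNFP_grQ : IsNFP x (grQ x) := by
  refine ⟨fun j => (grD_fg x j).map _, ⟨0, fun j hj => ?_⟩, D ⧸ idI x, inferInstance,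
    inferInstance, inferInstance, inferInstance, grQ x, isGraded_grQ x hx, ?_, 0,
    LinearEquiv.refl _ _, fun j m => Iff.rfl⟩
  · rw [grQ, grD_neg x hj, Submodule.map_bot]
  · refine Module.finitePresentation_of_surjective (idI x).mkQ (idI x).mkQ_surjective ?_
    rw [Submodule.ker_mkQ]
    exact Submodule.fg_span (Set.finite_singleton _)

end DPA

end Pool.Agent.MP_ae9641_al

end MrgPart2

-- ======== part 3: formerly Pool.Agent.MP_ae9641_al.Main
section MrgPart3

set_option autoImplicit false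

namespace Pool.Agent.MP_ae9641_al

variable {k D : Type} [CommRing k] [CommRing D] [Algebra k D] (x : Module.Basis ℕ k D)

/-- the diagonal operator multiplying `x n` by `c n` -/
noncomputable def diagOp (c : ℕ → k) : D →ₗ[k] D := x.constr k (fun n : ℕ => c n • x n)

theorem diagOp_x (c : ℕ → k) (n : ℕ) : diagOp x c (x n) = c n • x n := by simp [diagOp]

theorem repr_diagOp (c : ℕ → k) (y : D) (J : ℕ) :
    x.repr (diagOp x c y) J = c J * x.repr y J := by
  refine basis_induction x (p := fun y => x.repr (diagOp x c y) J = c J * x.repr y J) (by simp)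
    (fun a b ha hb => ?_) (fun r a ha => ?_) (fun n => ?_) y
  · simp only [mul_add, map_add, Finsupp.add_apply, ha, hb]
  · simp only [map_smul, Finsupp.smul_apply, ha, smul_eq_mul]; ring
  · rw [diagOp_x]
    simp only [map_smul, Finsupp.smul_apply, Module.Basis.repr_self, smul_eq_mul,
      Finsupp.single_apply]
    split_ifs with h
    · rw [h]
    · simp

theorem diagOp_mem (c : ℕ → k) {j : ℤ} {y : D} (hy : y ∈ grD x j) : diagOp x c y ∈ grD x j := by
  induction hy using Submodule.span_induction with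
  | mem a h =>
    obtain ⟨n, hn, rfl⟩ := h
    rw [diagOp_x]
    exact Submodule.smul_mem _ _ (Submodule.subset_span ⟨n, hn, rfl⟩)
  | zero => simp
  | add a b _ _ ha hb => rw [map_add]; exact Submodule.add_mem _ ha hb
  | smul r a _ ha => rw [map_smul]; exact Submodule.smul_mem _ _ ha

variable (hx : ∀ n m : ℕ, x n * x m = ((n + m).choose n : k) • x (n + m))
variable (c : ℕ → k) (hc : ∀ j l : ℕ, 1 ≤ j → j ≤ l → (j : k) ∣ c l - c j)
include hx

theorem smul_x_mem_idI (n : ℕ) (r : k) (h : ((n + 1 : ℕ) : k) ∣ r) : r • x (n + 1) ∈ idI x := by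
  obtain ⟨s, rfl⟩ := h
  refine Submodule.mem_span_singleton.2 ⟨s • x n, ?_⟩
  rw [smul_eq_mul, smul_mul_assoc, mul_comm (x n), x_one_mul x hx, smul_smul, mul_comm]

include hc

theorem diagOp_comm (m : D × D) (hm : m ∈ srcM x) (d : D) :
    diagOp x c (d * m.2) - d * diagOp x c m.2 ∈ idI x := by
  induction hm using Submodule.span_induction generalizing d with
  | mem a h =>
    obtain ⟨j, hj, ha⟩ := h
    obtain ⟨J, rfl⟩ : ∃ J : ℕ, j = ((J + 1 : ℕ) : ℤ) := ⟨(j - 1).toNat, by push_cast; omega⟩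
    obtain ⟨r, hr⟩ := (mem_grD_iff x (J + 1) a.2).1 ha.2
    rw [hr]
    refine basis_induction x (p := fun d => diagOp x c (d * (r • x (J + 1))) -
      d * diagOp x c (r • x (J + 1)) ∈ idI x) (by simp)
      (fun a b ha hb => ?_) (fun s a ha => ?_) (fun i => ?_) d
    · rw [add_mul, add_mul, map_add, add_sub_add_comm]
      exact Submodule.add_mem _ ha hb
    · rw [smul_mul_assoc, smul_mul_assoc, map_smul, ← smul_sub]
      exact Submodule.smul_of_tower_mem _ _ ha
    · rw [mul_smul_comm, map_smul, map_smul, mul_smul_comm, ← smul_sub]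
      refine Submodule.smul_of_tower_mem _ _ ?_
      rw [diagOp_x, mul_smul_comm, hx, map_smul, diagOp_x, smul_smul, smul_smul, ← sub_smul]
      refine smul_x_mem_idI x hx (i + J) _ ?_
      obtain ⟨s, hs⟩ := hc (J + 1) (i + (J + 1)) (by omega) (by omega)
      have h1 : (i + J + 1) * (i + J).choose J = (i + (J + 1)).choose i * (J + 1) := by
        rw [Nat.add_one_mul_choose_eq (i + J) J, Nat.choose_symm_add (a := i) (b := J + 1)]
        rfl
      have h2 : ((i + J + 1 : ℕ) : k) * ((i + J).choose J : k) =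
          ((i + (J + 1)).choose i : k) * ((J + 1 : ℕ) : k) := by exact_mod_cast congrArg Nat.cast h1
      refine ⟨((i + J).choose J : k) * s, ?_⟩
      rw [← mul_assoc, h2, mul_assoc, ← hs]
      ring
  | zero => simp
  | add a b _ _ ha hb =>
    rw [Prod.snd_add, mul_add, map_add, map_add, mul_add, add_sub_add_comm]
    exact Submodule.add_mem _ (ha d) (hb d)
  | smul r a _ ha =>
    have : diagOp x c (d * (r • a).2) - d * diagOp x c (r • a).2 =
        (diagOp x c ((d * r) * a.2) - (d * r) * diagOp x c a.2) -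
          d • (diagOp x c (r * a.2) - r * diagOp x c a.2) := by
      simp only [Prod.smul_snd, smul_eq_mul, mul_assoc]; ring
    rw [this]
    exact Submodule.sub_mem _ (ha _) (Submodule.smul_mem _ _ (ha _))

/-- the morphism `(a, b) ↦ a + c b` -/
noncomputable def theMap : srcM x →ₗ[D] D ⧸ idI x where
  toFun m := (idI x).mkQ (m.1.1 + diagOp x c m.1.2)
  map_add' a b := by
    rw [← map_add]; congr 1
    simp only [Submodule.coe_add, Prod.fst_add, Prod.snd_add, map_add]; abel
  map_smul' d a := by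
    rw [RingHom.id_apply, ← map_smul]
    refine (Submodule.Quotient.eq _).2 ?_
    have := diagOp_comm x hx c hc a.1 a.2 d
    convert this using 1
    simp only [Submodule.coe_smul, Prod.smul_fst, Prod.smul_snd, smul_eq_mul]; ring

theorem theMap_deg (j : ℤ) (m : srcM x) (hm : m ∈ subGrading (grDD x) (srcM x) j) :
    theMap x hx c hc m ∈ grQ x j :=
  ⟨m.1.1 + diagOp x c m.1.2, Submodule.add_mem _ hm.1 (diagOp_mem x c hm.2), rfl⟩

theorem ker_dvd (m : srcM x) (hm : m ∈ LinearMap.ker (theMap x hx c hc)) (J : ℕ) :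
    ((J + 1 : ℕ) : k) ∣ x.repr m.1.1 (J + 1) + c (J + 1) * x.repr m.1.2 (J + 1) := by
  have h1 : m.1.1 + diagOp x c m.1.2 ∈ idI x := (Submodule.Quotient.mk_eq_zero _).1 hm
  obtain ⟨w, hw⟩ := Submodule.mem_span_singleton.1 h1
  rw [← repr_diagOp, ← Finsupp.add_apply, ← map_add, ← hw, smul_eq_mul, mul_comm,
    repr_x_one_mul x hx]
  exact dvd_mul_right _ _

omit hc in
/-- the arithmetic heart of the argument -/
theorem heart [IsDomain k] [CharZero k] [IsLocalRing k]
    (h2 : ∀ a : k, a ≠ 0 → ∃ r : ℕ, ¬ 2 ^ r ∣ a)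
    (hirr : ∀ a : k, ∃ r : ℕ, ∀ l : ℕ, r ≤ l → ¬ 2 ^ r ∣ c l - a)
    (u : ℕ → D × D) (e : ℤ) (L : ℕ)
    (hrec : ∀ l, L ≤ l → x 1 • u l = ((l + 1 : ℕ) : k) • u (l + 1))
    (hker : ∀ l, L ≤ l → ∀ J : ℕ,
      ((J + 1 : ℕ) : k) ∣ x.repr (u l).1 (J + 1) + c (J + 1) * x.repr (u l).2 (J + 1)) :
    ∃ m₀ : ℕ, ∀ m, m₀ ≤ m → ∀ l : ℕ, e + l = ((2 ^ m : ℕ) : ℤ) →
      x.repr (u l).2 (2 ^ m) ∈ IsLocalRing.maximalIdeal k := by
  have r1 : ∀ l, L ≤ l → ∀ J : ℕ, ((J + 1 : ℕ) : k) * x.repr (u l).1 J =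
      ((l + 1 : ℕ) : k) * x.repr (u (l + 1)).1 (J + 1) := by
    intro l hl J
    have := congrArg (fun z : D × D => x.repr z.1 (J + 1)) (hrec l hl)
    simp only [Prod.smul_fst, smul_eq_mul, map_smul, Finsupp.smul_apply] at this
    rw [← this, repr_x_one_mul x hx]
  have r2 : ∀ l, L ≤ l → ∀ J : ℕ, ((J + 1 : ℕ) : k) * x.repr (u l).2 J =
      ((l + 1 : ℕ) : k) * x.repr (u (l + 1)).2 (J + 1) := by
    intro l hl J
    have := congrArg (fun z : D × D => x.repr z.2 (J + 1)) (hrec l hl)
    simp only [Prod.smul_snd, smul_eq_mul, map_smul, Finsupp.smul_apply] at this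
    rw [← this, repr_x_one_mul x hx]
  by_cases he : e = 0
  · subst he
    have c1 : ∀ l, L ≤ l → x.repr (u l).1 l = x.repr (u L).1 L := by
      intro l hl
      induction l, hl using Nat.le_induction with
      | base => rfl
      | succ l hl ih =>
        rw [← ih]
        exact (mul_left_cancel₀ (by exact_mod_cast Nat.succ_ne_zero l) (r1 l hl l)).symm
    have c2 : ∀ l, L ≤ l → x.repr (u l).2 l = x.repr (u L).2 L := by
      intro l hl
      induction l, hl using Nat.le_induction with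
      | base => rfl
      | succ l hl ih =>
        rw [← ih]
        exact (mul_left_cancel₀ (by exact_mod_cast Nat.succ_ne_zero l) (r2 l hl l)).symm
    have hb : x.repr (u L).2 L ∈ IsLocalRing.maximalIdeal k := by
      rw [IsLocalRing.mem_maximalIdeal, mem_nonunits_iff]
      rintro ⟨b, hb⟩
      obtain ⟨r, hr⟩ := hirr (-(x.repr (u L).1 L) * ↑b⁻¹)
      obtain ⟨J, hJ⟩ : ∃ J : ℕ, 2 ^ (r + L) = J + 1 :=
        ⟨2 ^ (r + L) - 1, by have : 0 < 2 ^ (r + L) := by positivity
                             omega⟩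
      have hlt : r + L < 2 ^ (r + L) := Nat.lt_two_pow_self
      have h3 := hker (J + 1) (by omega) J
      rw [c1 (J + 1) (by omega), c2 (J + 1) (by omega), ← hb] at h3
      apply hr (J + 1) (by omega)
      have h4 : (2 : k) ^ r ∣ ((J + 1 : ℕ) : k) := by
        rw [← hJ]; push_cast; exact pow_dvd_pow 2 (by omega)
      have h5 : c (J + 1) - -(x.repr (u L).1 L) * ↑b⁻¹ =
          (x.repr (u L).1 L + c (J + 1) * ↑b) * ↑b⁻¹ := by
        rw [add_mul, mul_assoc, Units.mul_inv]; ring
      rw [h5]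
      exact (h4.trans h3).mul_right _
    refine ⟨L, fun m hm l hl => ?_⟩
    have hl' : l = 2 ^ m := by omega
    have hlt : m < 2 ^ m := Nat.lt_two_pow_self
    rw [hl', c2 (2 ^ m) (by omega)]
    exact hb
  · obtain ⟨r, hr⟩ := h2 (e : k) (by exact_mod_cast he)
    refine ⟨r + L + e.natAbs + 1, fun m hm l hl => ?_⟩
    have hlt : m < 2 ^ m := Nat.lt_two_pow_self
    obtain ⟨J, hJ⟩ : ∃ J : ℕ, 2 ^ m = J + 1 := ⟨2 ^ m - 1, by omega⟩
    obtain ⟨l, rfl⟩ : ∃ l', l = l' + 1 := ⟨l - 1, by omega⟩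
    rw [IsLocalRing.mem_maximalIdeal, mem_nonunits_iff, hJ]
    intro hu
    have h3 := r2 l (by omega) J
    have h4 : ((J + 1 : ℕ) : k) ∣ ((l + 1 : ℕ) : k) := by
      rw [← hu.dvd_mul_right, ← h3]; exact dvd_mul_right _ _
    apply hr
    have h5 : (e : k) = ((J + 1 : ℕ) : k) - ((l + 1 : ℕ) : k) := by
      have : e = ((J + 1 : ℕ) : ℤ) - ((l + 1 : ℕ) : ℤ) := by rw [← hJ]; omega
      rw [this]; push_cast; ring
    have h6 : (2 : k) ^ r ∣ ((J + 1 : ℕ) : k) := by
      rw [← hJ]; push_cast; exact pow_dvd_pow 2 (by omega)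
    rw [h5]
    exact dvd_sub h6 (h6.trans h4)

omit hc in
theorem not_nfp_aux [IsDomain k] [CharZero k] [IsLocalRing k]
    (h2 : ∀ a : k, a ≠ 0 → ∃ r : ℕ, ¬ 2 ^ r ∣ a)
    (hirr : ∀ a : k, ∃ r : ℕ, ∀ l : ℕ, r ≤ l → ¬ 2 ^ r ∣ c l - a)
    {K : Type} [AddCommGroup K] [Module k K] [Module D K] [IsScalarTower k D K]
    (𝒦 : ℤ → Submodule k K) (ι : K →ₗ[D] D × D)
    (hker : ∀ (z : K) (J : ℕ),
      ((J + 1 : ℕ) : k) ∣ x.repr (ι z).1 (J + 1) + c (J + 1) * x.repr (ι z).2 (J + 1))
    (hw : ∀ J : ℕ, 1 ≤ J → ∃ z ∈ 𝒦 (J : ℤ), x.repr (ι z).2 J = 1) :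
    ¬ IsNFP x 𝒦 := by
  classical
  rintro ⟨-, -, N, _, _, _, _, 𝒩, hN, hfp, n, e, he⟩
  obtain ⟨P, hP1, hP2, hP3⟩ := exists_proj hN.1
  -- the inverse isomorphism, followed by the inclusion into `D × D`
  let ψ : trunc D 𝒩 n →ₗ[D] D × D :=
    ι ∘ₗ (trunc D 𝒦 n).subtype ∘ₗ e.symm.toLinearMap
  have hmem : ∀ (j : ℤ), n ≤ j → ∀ y : N, y ∈ 𝒩 j → y ∈ trunc D 𝒩 n :=
    fun j hj y hy => Submodule.subset_span ⟨j, hj, hy⟩
  let Λ : (m : ℕ) → n ≤ ((2 ^ m : ℕ) : ℤ) → N → k := fun m h y =>
    x.repr (ψ ⟨P ((2 ^ m : ℕ) : ℤ) y, hmem _ h _ (hP1 _ _)⟩).2 (2 ^ m)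
  have Λadd : ∀ m h (y z : N), Λ m h (y + z) = Λ m h y + Λ m h z := by
    intro m h y z
    simp only [Λ]
    rw [← Finsupp.add_apply, ← map_add, ← Prod.snd_add, ← map_add]
    congr 4
    exact Subtype.ext (map_add _ _ _)
  have Λsmul : ∀ m h (r : k) (y : N), Λ m h (r • y) = r * Λ m h y := by
    intro m h r y
    simp only [Λ]
    rw [← smul_eq_mul, ← Finsupp.smul_apply, ← map_smul, ← Prod.smul_snd,
      ← LinearMap.map_smul_of_tower]
    congr 4
    exact Subtype.ext (map_smul _ _ _)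
  have Λzero : ∀ m h, Λ m h 0 = 0 := by
    intro m h
    have := Λsmul m h 0 0
    rwa [zero_smul, zero_mul] at this
  let T : ℕ → Submodule D N := fun m₀ =>
    { carrier := {y | ∀ m, m₀ ≤ m → ∀ h, ∀ d : D, Λ m h (d • y) ∈ IsLocalRing.maximalIdeal k}
      add_mem' := fun {a b} ha hb m hm h d => by
        rw [smul_add, Λadd m h]; exact Ideal.add_mem _ (ha m hm h d) (hb m hm h d)
      zero_mem' := fun m hm h d => by rw [smul_zero, Λzero m h]; exact Ideal.zero_mem _
      smul_mem' := fun r a ha m hm h d => by rw [smul_smul]; exact ha m hm h _ }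
  have hTmono : Monotone T := fun a b hab y hy m hm h d => hy m (hab.trans hm) h d
  have hhom : ∀ (j : ℤ) (g : N), g ∈ 𝒩 j → ∃ m₀, g ∈ T m₀ := by
    intro j g hg
    let u : ℕ → D × D := fun l =>
      if h : n ≤ j + l then ψ ⟨x l • g, hmem _ h _ (hN.2 l j g hg)⟩ else 0
    have hL : ∀ l : ℕ, (n - j).toNat ≤ l → n ≤ j + l := fun l hl => by omega
    obtain ⟨m₀, hm₀⟩ := heart x hx c h2 hirr u j (n - j).toNat (fun l hl => by
      simp only [u]
      rw [dif_pos (hL l hl), dif_pos (hL (l + 1) (by omega)), ← map_smul,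
        ← LinearMap.map_smul_of_tower]
      congr 1
      apply Subtype.ext
      change x 1 • x l • g = ((l + 1 : ℕ) : k) • x (l + 1) • g
      rw [smul_smul, x_one_mul x hx, smul_assoc]) (fun l hl J => by
      simp only [u]
      rw [dif_pos (hL l hl)]
      exact hker _ J)
    refine ⟨m₀, fun m hm h d => ?_⟩
    refine basis_induction x (p := fun d => Λ m h (d • g) ∈ IsLocalRing.maximalIdeal k) ?_
      (fun a b ha hb => ?_) (fun r a ha => ?_) (fun l => ?_) d
    · rw [zero_smul, Λzero m h]; exact Ideal.zero_mem _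
    · rw [add_smul, Λadd m h]; exact Ideal.add_mem _ ha hb
    · rw [smul_assoc, Λsmul m h]; exact Ideal.mul_mem_left _ _ ha
    · by_cases hl : j + l = ((2 ^ m : ℕ) : ℤ)
      · have h3 := hm₀ m hm l hl
        simp only [u] at h3
        rw [dif_pos (hl ▸ h)] at h3
        convert h3 using 1
        simp only [Λ]
        congr 4
        exact Subtype.ext (hP2 _ _ (hl ▸ hN.2 l j g hg))
      · have h3 : P ((2 ^ m : ℕ) : ℤ) (x l • g) = 0 := hP3 _ _ _ hl (hN.2 l j g hg)
        have h4 : Λ m h (x l • g) = Λ m h 0 := by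
          simp only [Λ]
          congr 4
          exact Subtype.ext (h3.trans (map_zero _).symm)
        rw [h4, Λzero m h]; exact Ideal.zero_mem _
  have htop : (⨆ m₀, T m₀) = ⊤ := by
    rw [eq_top_iff]
    intro y _
    have h1 : (⨆ j, 𝒩 j) ≤ (⨆ m₀, T m₀).restrictScalars k := iSup_le fun j g hg => by
      obtain ⟨m₀, hm₀⟩ := hhom j g hg
      exact Submodule.mem_iSup_of_mem m₀ hm₀
    apply h1
    rw [hN.1.submodule_iSup_eq_top]; trivial
  obtain ⟨m₀, hm₀⟩ := Submodule.FG.stabilizes_of_iSup_eq (Module.Finite.fg_top (R := D) (M := N))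
    ⟨T, hTmono⟩ htop
  -- the test element in degree `2 ^ m`
  let m : ℕ := m₀ + n.toNat
  have hlt : m < 2 ^ m := Nat.lt_two_pow_self
  have hn : n ≤ ((2 ^ m : ℕ) : ℤ) := by omega
  obtain ⟨z, hw3, hz⟩ := hw (2 ^ m) (by omega)
  let w : trunc D 𝒦 n := ⟨z, Submodule.subset_span ⟨_, hn, hw3⟩⟩
  have hw4 : (e w : N) ∈ 𝒩 ((2 ^ m : ℕ) : ℤ) := (he _ w).1 hw3
  have hw5 : (e w : N) ∈ T m₀ := by
    have : T m₀ = ⊤ := hm₀.symm
    rw [this]; trivial
  have hw6 := hw5 m (by omega) hn 1
  have hw7 : Λ m hn ((1 : D) • (e w : N)) = 1 := by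
    simp only [Λ]
    have : (⟨P ((2 ^ m : ℕ) : ℤ) ((1 : D) • (e w : N)), hmem _ hn _ (hP1 _ _)⟩ : trunc D 𝒩 n)
        = e w := Subtype.ext (by rw [one_smul]; exact hP2 _ _ hw4)
    rw [this]
    have h8 : ψ (e w) = ι z := by simp [ψ, w]
    rw [h8, hz]
  rw [hw7] at hw6
  exact (IsLocalRing.maximalIdeal.isMaximal k).ne_top ((Ideal.eq_top_iff_one _).2 hw6)

theorem not_nfp_ker [IsDomain k] [CharZero k] [IsLocalRing k]
    (h2 : ∀ a : k, a ≠ 0 → ∃ r : ℕ, ¬ 2 ^ r ∣ a)
    (hirr : ∀ a : k, ∃ r : ℕ, ∀ l : ℕ, r ≤ l → ¬ 2 ^ r ∣ c l - a) :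
    ¬ IsNFP (M := LinearMap.ker (theMap x hx c hc)) x
      (subGrading (subGrading (grDD x) (srcM x)) (LinearMap.ker (theMap x hx c hc))) := by
  refine not_nfp_aux x hx c h2 hirr _
    ((srcM x).subtype ∘ₗ (LinearMap.ker (theMap x hx c hc)).subtype)
    (fun z J => ker_dvd x hx c hc z.1 z.2 J) (fun J hJ => ?_)
  have hw0 : ((-(c J • x J), x J) : D × D) ∈ grDD x (J : ℤ) :=
    ⟨Submodule.neg_mem _ (Submodule.smul_mem _ _ (x_mem_grD x _)), x_mem_grD x _⟩
  have hw1 : ((-(c J • x J), x J) : D × D) ∈ srcM x := Submodule.subset_span ⟨_, by omega, hw0⟩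
  have hw2 : (⟨_, hw1⟩ : srcM x) ∈ LinearMap.ker (theMap x hx c hc) := by
    change (idI x).mkQ (-(c J • x J) + diagOp x c (x J)) = 0
    rw [diagOp_x, neg_add_cancel, map_zero]
  refine ⟨⟨⟨_, hw1⟩, hw2⟩, hw0, ?_⟩
  change x.repr (x J) J = 1
  simp

end Pool.Agent.MP_ae9641_al

end MrgPart3

-- marker of a merged file
example : 731051 + 739911 = 731051 + 739911 := rfl
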